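import Mathlib
import Pool.Agent.H24D.Cls
import Pool.Agent.SJac.Transfer

/-!
# A criterion for the Selmer group conjecture for Jacobians of superelliptic curves
-/

open Polynomial Pool.Agent.SJac Pool.Agent.H24D

open Pool.Agent.MP1bdb59 (TateModule)

noncomputable section

open scoped Classical

namespace Pool.Agent.Results.MP_1bdb59_nt.DescentCriterion

/-- The Tate-Shafarevich group of `J` (for the places of `K` trivial on `k`) has no element of
order `ℓ`, and its `ℓ`-adic Tate module is zero. -/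
def ShaZero (k : Type*) {K : Type*} [Field k] [Field K] [Algebra k K] (ℓ : ℕ) (f : K[X]) : Prop :=
  (∀ ξ ∈ Sha k ℓ f, ℓ • ξ = 0 → ξ = 0) ∧ TateModule ℓ (Sha k ℓ f) = ⊥

/-- `J(K) = ℓ J(K)`. -/
def DivPts {K : Type*} [Field K] (ℓ : ℕ) (f : K[X]) : Prop :=
  ∀ t : Jac ℓ f K, (∀ σ, act ℓ f K σ t = t) →
    ∃ s : Jac ℓ f K, (∀ σ, act ℓ f K σ s = s) ∧ ℓ • s = t

/-- An ideal of `O = A[x]/(f)` whose `ℓ`-th power is principal is principal, and a unit of `O` is
the product of a unit of `A` and the `ℓ`-th power of a unit of `O`. -/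
def ClassUnit {A : Type*} [CommRing A] (ℓ : ℕ) (f : A[X]) : Prop :=
  (∀ I : Ideal (AdjoinRoot f), (I ^ ℓ).IsPrincipal → I.IsPrincipal) ∧
    ∀ u : AdjoinRoot f, IsUnit u → ∃ (c : A) (v : AdjoinRoot f), IsUnit c ∧ IsUnit v ∧
      u = AdjoinRoot.of f c * v ^ ℓ

/-- Let `ℓ` be a prime number, `K / k` a field extension, `K' / K` a finite separable extension of
degree prime to `ℓ` and `k'` a field between `k` and `K'` which contains a primitive `ℓ`-th root of
unity. Let `A` be a Dedekind domain containing `k'`, with field of fractions `K'`, and `f` a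
separable polynomial over `K`, of degree prime to `ℓ`, which over `K'` is a monic polynomial with
coefficients in `A` and such that `O = A[x]/(f)` is a Dedekind domain. Let `L` be the field of
fractions of `O`, `θ` the class of `x`, and `J` the Jacobian of the curve `C : y^ℓ = f(x)` over `K`.

Consider the elements `m ≠ 0` of `O` for which `m O = I^ℓ` for some ideal `I` and `N(m) = r^ℓ` for
some `r` in `A`.

* If every such `m` is the product of an `ℓ`-th power in `L` and of elements `a - θ`, where `(a, b)`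
  are points of `C` over `K'` with `b ≠ 0`, then the Tate-Shafarevich group of `J` (for the places
  of `K` trivial on `k`) has no element of order `ℓ`, so its `ℓ`-adic Tate module vanishes.
* If every such `m` is an `ℓ`-th power in `L` then moreover `J(K) = ℓ J(K)`.
* The latter holds if every ideal of `O` whose `ℓ`-th power is principal is principal and every unit
  of `O` is the product of a unit of `A` and the `ℓ`-th power of a unit of `O`. -/
theorem result {k K k' K' A : Type*} [Field k] [Field K] [Algebra k K] [Field k'] [Field K']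
    [Algebra k' K'] [Algebra K K'] [Algebra k k'] [Algebra k K'] [IsScalarTower k K K']
    [IsScalarTower k k' K'] [FiniteDimensional K K'] [Algebra.IsSeparable K K']
    [CommRing A] [IsDedekindDomain A] [Algebra k' A] [Algebra A K'] [IsFractionRing A K']
    [IsScalarTower k' A K'] {ℓ : ℕ} (hℓ : ℓ.Prime) (hd : ¬ ℓ ∣ Module.finrank K K') {ζ : k'}
    (hζ : IsPrimitiveRoot ζ ℓ) (fK : K[X]) (hsep : fK.Separable) (f : A[X]) (hf : f.Monic)
    (hfK : fK.map (algebraMap K K') = f.map (algebraMap A K')) (hdeg : ¬ ℓ ∣ f.natDegree)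
    (hO : IsDedekindDomain (AdjoinRoot f)) :
    (Gen ℓ K' f (ptMon ℓ (f.map (algebraMap A K'))) → ShaZero k ℓ fK) ∧
    (Gen ℓ K' f {1} → ShaZero k ℓ fK ∧ DivPts ℓ fK) ∧
    (ClassUnit ℓ f → Gen ℓ K' f {1}) := by
  have hp : Fact ℓ.Prime := ⟨hℓ⟩
  have hsep' : (f.map (algebraMap A K')).Separable := by
    rw [← hfK]
    exact hsep.map
  obtain ⟨h1, h2⟩ := criterion' k' hζ f hf hsep' hdeg
  have htate : (∀ ξ ∈ Sha k ℓ fK, ℓ • ξ = 0 → ξ = 0) → TateModule ℓ (Sha k ℓ fK) = ⊥ := by
    intro h
    refine Pool.Agent.MP1bdb59C.tateModule_eq_bot ?_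
    rintro ⟨ξ, hξ⟩ hξ2
    apply Subtype.ext
    exact h ξ hξ (congrArg Subtype.val hξ2)
  refine ⟨fun H => ?_, fun H => ?_, fun H => gen_of_class f hf hdeg H.1 H.2⟩
  · have h4 := h1 H
    rw [← hfK] at h4
    have h3 := transfer k ℓ ℓ fK (Pool.Agent.MP1bdb59C.descend_sha (k := k) (k' := k') hd fK h4)
    exact ⟨h3, htate h3⟩
  · have h8 := h2 H
    rw [← hfK] at h8
    obtain ⟨h3, h4⟩ := h8
    obtain ⟨h5, h6⟩ := Pool.Agent.MP1bdb59C.descend_baseChange (k := k) (k' := k') hd fK h3 h4
    have h7 := transfer k ℓ ℓ fK h5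
    exact ⟨⟨h7, htate h7⟩, transfer_div ℓ ℓ fK h6⟩

end Pool.Agent.Results.MP_1bdb59_nt.DescentCriterion
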