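import Mathlib
import Pool.Agent.H28G.Ram
import Pool.Agent.SJac.Transfer

/-!
# The Selmer group conjecture for twists of superelliptic curves by rational functions
-/

open Polynomial Pool.Agent.SJac

open Pool.Agent.MP1bdb59 (TateModule)

noncomputable section

open scoped Classical

namespace Pool.Agent.Results.MP_1bdb59_nt.GenericTwist

universe u v w w₀ w₁

/-- The group `J(K)` of rational points of the Jacobian `J` of `y^ℓ = g(x)`: the elements of
`J(K^s)` fixed by `Gal(K^s/K)`. -/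
def MW (ℓ : ℕ) {K : Type v} [Field K] (g : K[X]) : AddSubgroup (Jac ℓ g K) where
  carrier := {t | ∀ σ, act ℓ g K σ t = t}
  zero_mem' := fun σ => map_zero _
  add_mem' := by
    intro a b ha hb σ
    rw [map_add, ha, hb]
  neg_mem' := by
    intro a ha σ
    rw [map_neg, ha]

/-- `Q` is an irreducible polynomial in `F₀[s]`, dividing no nonzero polynomial in `k₀[s]`, whose
multiplicity in `D` is not divisible by `ℓ`. -/
structure Ramified (k₀ : Type w₀) {F₀ : Type w₁} [Field k₀] [Field F₀] [Algebra k₀ F₀] (ℓ : ℕ)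
    (D Q : F₀[X]) : Prop where
  irreducible : Irreducible Q
  not_dvd : ∀ q : k₀[X], q ≠ 0 → ¬ Q ∣ q.map (algebraMap k₀ F₀)
  mult : ¬ ℓ ∣ multiplicity Q D

/-- The degree of `P` is prime to `ℓ`, or there are a finite extension `N` of `F₀` containing a
primitive `ℓ`-th root of unity and a root of `P`, over which `f` is irreducible, and a field `E`
between `F₀` and `N`, of degree prime to `ℓ` over `F₀`, such that `N` is a Galois extension of
`E`. -/
def Ample (ℓ : ℕ) {F₀ : Type w₁} [Field F₀] (f P : F₀[X]) : Prop :=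
  ¬ ℓ ∣ P.natDegree ∨ ∃ (N : Type w) (_ : Field N) (_ : Algebra F₀ N)
    (E : IntermediateField F₀ N), FiniteDimensional F₀ N ∧ ¬ ℓ ∣ Module.finrank F₀ E ∧
    IsGalois E N ∧ (∃ ζ : N, IsPrimitiveRoot ζ ℓ) ∧ (∃ y : N, aeval y P = 0) ∧
    Irreducible (f.map (algebraMap F₀ N))

/-- Let `ℓ` be a prime number, `k₀` a field of characteristic different from `ℓ`, `F₀` an
extension field of `k₀` and `f` in `F₀[x]` a monic separable irreducible polynomial of degree `n`
prime to `ℓ` such that `k₀` is algebraically closed in `L = F₀[x]/(f)`. Put `k = k₀(s)` and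
`K = F₀(s)`, `s` an indeterminate. Let `d = D e^ℓ`, with `D` a nonzero polynomial in `F₀[s]` and
`e` in `K^*` (every `d` in `K^*` is of this form). Call an irreducible polynomial `Q` in `F₀[s]`
ramified if it divides no nonzero polynomial in `k₀[s]` and its multiplicity in `D` is not
divisible by `ℓ`. Suppose that the ramified `Q` are irreducible over `L(ζ_ℓ)`, and that there is
a ramified `P` such that the degree of `P` is prime to `ℓ` or `f` is irreducible over a finite
extension `N` of `F₀` which contains a primitive `ℓ`-th root of unity and a root of `P` and is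
Galois over an extension `E` of `F₀` of degree prime to `ℓ`. Let `J` be the Jacobian of the twist
`y^ℓ = d^n f(x/d)` of the curve `y^ℓ = f(x)`. Then the Tate-Shafarevich group of `J` over `K` (for
the places of `K` trivial on `k`) has no element of order `ℓ`, so its `ℓ`-adic Tate module
vanishes, `J(K) = ℓ J(K)`, and `J(K)` has no element of order `ℓ`. -/
theorem result {k₀ : Type w₀} {F₀ : Type w₁} {k : Type u} {K : Type v} [Field k₀] [Field F₀]
    [Algebra k₀ F₀] [Field k] [Field K] [Algebra k₀[X] k] [IsFractionRing k₀[X] k]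
    [Algebra F₀[X] K] [IsFractionRing F₀[X] K] [Algebra k K]
    (hcomp : ∀ q : k₀[X], algebraMap k K (algebraMap k₀[X] k q) =
      algebraMap F₀[X] K (q.map (algebraMap k₀ F₀)))
    {ℓ : ℕ} (hℓ : ℓ.Prime) (hℓ0 : (ℓ : k₀) ≠ 0) (f : F₀[X]) (hf : f.Monic)
    [hirr : Fact (Irreducible f)] (hsep : f.Separable) (hdeg : ¬ ℓ ∣ f.natDegree)
    (hreg : ∀ x : AdjoinRoot f, IsAlgebraic k₀ x → x ∈ Set.range (algebraMap k₀ (AdjoinRoot f)))
    (D P : F₀[X]) (hD : D ≠ 0)
    (hDL : ∀ Q : F₀[X], Ramified k₀ ℓ D Q →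
      Irreducible (Q.map (algebraMap F₀ (CyclotomicField ℓ (AdjoinRoot f)))))
    (hP : Ramified k₀ ℓ D P) (hPA : Ample.{w} ℓ f P) (e : K) (he : e ≠ 0) (g : K[X])
    (hg : g = (f.map ((algebraMap F₀[X] K).comp C)).scaleRoots (algebraMap F₀[X] K D * e ^ ℓ)) :
    (∀ ξ ∈ Sha k ℓ g, ℓ • ξ = 0 → ξ = 0) ∧ TateModule ℓ (Sha k ℓ g) = ⊥ ∧
      (∀ t ∈ MW ℓ g, ∃ s ∈ MW ℓ g, ℓ • s = t) ∧ (∀ t ∈ MW ℓ g, ℓ • t = 0 → t = 0) := by
  have hp : Fact ℓ.Prime := ⟨hℓ⟩
  obtain ⟨h1, h2, h3⟩ := Pool.Agent.H28G.twist_ram hcomp hℓ0 hf hsep hdeg hreg hD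
    (fun Q hQ1 hQ2 hQ3 => hDL Q ⟨hQ1, hQ2, hQ3⟩) hP.irreducible hP.not_dvd hPA hP.mult he g hg
  have h1' := transfer k ℓ ℓ _ h1
  refine ⟨h1', Pool.Agent.MP1bdb59C.tateModule_eq_bot ?_, transfer_div ℓ ℓ _ h2, ?_⟩
  · rintro ⟨ξ, hξ⟩ hξ2
    apply Subtype.ext
    exact h1' ξ hξ (congrArg Subtype.val hξ2)
  · intro t ht htℓ
    apply (toOld ℓ g K).injective
    rw [map_zero]
    refine h3 _ (fun σ => ?_) ?_
    · rw [← toOld_act, ht σ]
    · rw [← map_nsmul, htℓ, map_zero]

end Pool.Agent.Results.MP_1bdb59_nt.GenericTwist
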