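import Mathlib
import Pool.Agent.HS36.All
import Pool.Agent.MP1bdb59C.HitFG
import Pool.Agent.SJac.Transfer

/-!
# The Selmer group conjecture for all twists outside a thin set, for finitely many superelliptic
curves over function fields over a field of characteristic zero at once
-/

open Polynomial Pool.Agent.SJac

open Pool.Agent.MP1bdb59 (TateModule)

noncomputable section

open scoped Classical

namespace Pool.Agent.Results.MP_1bdb59_nt.HilbertTwists

universe u v w

/-- For all `u` in `k`, `u ≠ 0`, all `γ` in `Γ` and all `j` prime to `ℓ` the following holds. Put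
`d = u γ (h - c)^j` and let `J` be the Jacobian of the twist `y^ℓ = d^n f(x/d)`, `n = deg f`, of the
curve `y^ℓ = f(x)` over `K`. The Tate-Shafarevich group of `J` over `K` (for the places of `K`
trivial on `k`) has no element of order `ℓ`, its `ℓ`-adic Tate module vanishes, and
`J(K) = ℓ J(K)`. -/
def Holds {k : Type u} {K : Type v} [Field k] [Field K] [Algebra k K] (h : K) (ℓ : ℕ) (f : K[X])
    (Γ : Subgroup Kˣ) (c : k) : Prop :=
  ∀ (u : kˣ), ∀ γ ∈ Γ, ∀ j : ℕ, ¬ ℓ ∣ j → ∀ g : K[X],
    g = f.scaleRoots (algebraMap k K u * γ * (h - algebraMap k K c) ^ j) →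
    (∀ ξ ∈ Sha k ℓ g, ℓ • ξ = 0 → ξ = 0) ∧ TateModule ℓ (Sha k ℓ g) = ⊥ ∧
      ∀ t : Jac ℓ g K, (∀ σ, act ℓ g K σ t = t) →
        ∃ s : Jac ℓ g K, (∀ σ, act ℓ g K σ s = s) ∧ ℓ • s = t

/-- Let `k` be a field of characteristic zero. Let finitely many data be given, numbered by `i`:
an extension field `K i` of `k`, an element `h i` of `K i` transcendental over `k` with `K i` finite
over `k(h i)` (so `K i` is the function field of a curve over `k` and `h i` any nonconstant
function), a prime number `ℓ i`, a monic irreducible polynomial `f i` in `(K i)[x]` of degree prime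
to `ℓ i` such that `k` is algebraically closed in `(K i)[x]/(f i)`, and a finitely generated
subgroup `Γ i` of the multiplicative group of `K i`. Then there are a finite set `S` of polynomials
`F(X,Y)` with coefficients in `k`, irreducible over `k(X)`, and a finite subset `B` of `k`, such
that the three conclusions in `Holds` hold for all `i`, all twists and all `c` in `k` outside `B`
for which all `F(c,Y)`, `F` in `S`, are irreducible. If `k` is finitely generated over `ℚ`, there
are infinitely many such `c`. -/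
theorem result {k : Type u} [Field k] [CharZero k] {ι : Type w} [Finite ι] (K : ι → Type v)
    [∀ i, Field (K i)] [∀ i, Algebra k (K i)] (h : ∀ i, K i) (hh : ∀ i, Transcendental k (h i))
    (hfin : ∀ i, FiniteDimensional (IntermediateField.adjoin k {h i}) (K i)) (ℓ : ι → ℕ)
    (hℓ : ∀ i, (ℓ i).Prime) (f : ∀ i, (K i)[X]) (hf : ∀ i, (f i).Monic)
    (hirr : ∀ i, Irreducible (f i)) (hdeg : ∀ i, ¬ ℓ i ∣ (f i).natDegree)
    (hreg : ∀ i, ∀ x : AdjoinRoot (f i), IsAlgebraic k x →
      x ∈ Set.range (algebraMap k (AdjoinRoot (f i))))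
    (Γ : ∀ i, Subgroup (K i)ˣ) (hΓ : ∀ i, (Γ i).FG) :
    ∃ S : Finset (k[X])[X], (∀ F ∈ S, Irreducible (F.map (algebraMap k[X] (RatFunc k)))) ∧
      ∃ B : Set k, B.Finite ∧
        (∀ c ∉ B, (∀ F ∈ S, Irreducible (F.map (evalRingHom c))) →
          ∀ i, Holds (h i) (ℓ i) (f i) (Γ i) c) ∧
        ((⊤ : IntermediateField ℚ k).FG →
          {c : k | c ∉ B ∧ ∀ F ∈ S, Irreducible (F.map (evalRingHom c))}.Infinite) := by
  have key : ∀ i, {c : k | Holds (h i) (ℓ i) (f i) (Γ i) c} ∈ Pool.Agent.HS36.hilbFilter k := by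
    intro i
    have hp : Fact (ℓ i).Prime := ⟨hℓ i⟩
    have := hfin i
    refine Filter.mem_of_superset (Pool.Agent.HS36.famTwist_all
      (Pool.Agent.HS36.isHilbFilter_hilbFilter k) (hh i) (hf i) (hirr i) (hdeg i) (hreg i)
      (hΓ i)) ?_
    intro c hc u γ hγ j hj g hg
    obtain ⟨h1, h2⟩ := hc u γ hγ j hj g hg
    have h1' := transfer k (ℓ i) (ℓ i) g h1
    refine ⟨h1', Pool.Agent.MP1bdb59C.tateModule_eq_bot ?_, transfer_div (ℓ i) (ℓ i) g h2⟩
    rintro ⟨ξ, hξ⟩ hξ2
    apply Subtype.ext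
    exact h1' ξ hξ (congrArg Subtype.val hξ2)
  obtain ⟨S, hS, B, hB, hall⟩ := Pool.Agent.HS36.mem_hilbFilter.mp (Filter.iInter_mem.mpr key)
  refine ⟨S, fun F hF => (hS F hF).1, B, hB, ?_, ?_⟩
  · intro c hcB hcS i
    exact Set.mem_iInter.mp (hall c hcB hcS) i
  · intro hk
    refine ((Pool.Agent.MP1bdb59C.isHilbertian_of_fg hk S hS).sdiff hB).mono ?_
    rintro c ⟨h1, h2⟩
    exact ⟨h2, h1⟩

end Pool.Agent.Results.MP_1bdb59_nt.HilbertTwists
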