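import Mathlib
import Pool.Agent.HSR.All
import Pool.Agent.MP1bdb59C.HitFG
import Pool.Agent.SJac.Transfer

/-!
# The twists of positive rank of finitely many superelliptic curves over function fields over a
field of characteristic zero satisfy the Selmer group conjecture, for all parameters outside thin
sets
-/

open Polynomial Pool.Agent.SJac

open Pool.Agent.MP1bdb59 (TateModule)

noncomputable section

open scoped Classical

namespace Pool.Agent.Results.MP_1bdb59_nt.RankHilbert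

universe u v w

/-- The group `J(K)` of rational points of the Jacobian `J` of `y^ℓ = g(x)`: the elements of
`J(K^s)` fixed by `Gal(K^s/K)`. -/
def MW (ℓ : ℕ) {K : Type v} [Field K] (g : K[X]) : AddSubgroup (Jac ℓ g K) where
  carrier := {t | ∀ σ, act ℓ g K σ t = t}
  zero_mem' := fun σ => map_zero _
  add_mem' := by
    intro a b ha hb σ
    rw [map_add, ha, hb]
  neg_mem' := by
    intro a ha σ
    rw [map_neg, ha]

open Pool.Agent.MP1bdb59C in
/-- Comparison of two forms of the index. -/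
lemma card_eq (ℓ : ℕ) {K : Type v} [Field K] (g : K[X]) :
    Nat.card (MW ℓ g ⧸ (nsmulAddMonoidHom ℓ : MW ℓ g →+ MW ℓ g).range) =
      ((Idx.inv (MP1bdb59C.act ℓ g K) ⊤).map (nsmulAddMonoidHom ℓ)).relIndex
        (Idx.inv (MP1bdb59C.act ℓ g K) ⊤) := by
  have hmem : ∀ t, t ∈ MW ℓ g ↔ toOld ℓ g K t ∈ Idx.inv (MP1bdb59C.act ℓ g K) ⊤ := by
    intro t
    constructor
    · intro h σ _
      rw [← toOld_act, h σ]
    · intro h σ
      apply (toOld ℓ g K).injective
      rw [toOld_act]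
      exact h σ trivial
  let e : MW ℓ g ≃+ Idx.inv (MP1bdb59C.act ℓ g K) ⊤ :=
    { toFun := fun t => ⟨toOld ℓ g K t.1, (hmem t.1).mp t.2⟩
      invFun := fun t => ⟨(toOld ℓ g K).symm t.1, (hmem _).mpr (by
        rw [AddEquiv.apply_symm_apply]
        exact t.2)⟩
      left_inv := fun t => Subtype.ext ((toOld ℓ g K).symm_apply_apply t.1)
      right_inv := fun t => Subtype.ext ((toOld ℓ g K).apply_symm_apply t.1)
      map_add' := fun a b => Subtype.ext (map_add (toOld ℓ g K) a.1 b.1) }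
  have h1 : ((nsmulAddMonoidHom ℓ : MW ℓ g →+ MW ℓ g).range).map (e : MW ℓ g →+ _) =
      ((Idx.inv (MP1bdb59C.act ℓ g K) ⊤).map (nsmulAddMonoidHom ℓ)).addSubgroupOf
        (Idx.inv (MP1bdb59C.act ℓ g K) ⊤) := by
    ext x
    rw [AddSubgroup.mem_addSubgroupOf]
    constructor
    · rintro ⟨_, ⟨t, rfl⟩, rfl⟩
      refine ⟨(e t).1, (e t).2, ?_⟩
      change ℓ • (e t).1 = (e (ℓ • t)).1
      rw [map_nsmul]
      rfl
    · rintro ⟨t, ht, h⟩
      refine ⟨ℓ • e.symm ⟨t, ht⟩, ⟨_, rfl⟩, ?_⟩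
      apply Subtype.ext
      change (e (ℓ • e.symm ⟨t, ht⟩)).1 = x.1
      rw [map_nsmul, AddEquiv.apply_symm_apply, ← h]
      rfl
  unfold AddSubgroup.relIndex
  rw [← h1, AddSubgroup.index_map_equiv]
  rfl

/-- `T` contains almost all elements of `k` in the sense of Hilbert: there are a finite set `S` of
polynomials `F(X,Y)` with coefficients in `k`, irreducible over `k(X)`, and a finite subset `B` of
`k`, such that every `c` outside `B` for which all `F(c,Y)`, `F` in `S`, are irreducible belongs to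
`T`. -/
def Most {k : Type u} [Field k] (T : Set k) : Prop :=
  ∃ S : Finset (k[X])[X], (∀ F ∈ S, Irreducible (F.map (algebraMap k[X] (RatFunc k)))) ∧
    ∃ B : Set k, B.Finite ∧
      ∀ c ∉ B, (∀ F ∈ S, Irreducible (F.map (evalRingHom c))) → c ∈ T

/-- Put `n = deg f`, `w = h - c₁`, `x₀ = c₂ + 1/w` and `D = w^n f(x₀)`. For all `j` such that `ℓ`
divides `n j + 1` the following holds for the Jacobian `J` of the twist `y^ℓ = d^n f(x/d)`,
`d = D^j w`, of the curve `y^ℓ = f(x)` over `K`. The Tate-Shafarevich group of `J` over `K` (for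
the places of `K` trivial on `k`) has no element of order `ℓ`, its `ℓ`-adic Tate module vanishes,
`J(K)` has no element of order `ℓ`, and `J(K)/ℓJ(K)` has `ℓ^r` elements, where
`r = (ℓ - 1)/[k(ζ_ℓ) : k]`. -/
def Holds {k : Type u} {K : Type v} [Field k] [Field K] [Algebra k K] (h : K) (ℓ : ℕ) (f : K[X])
    (c₁ c₂ : k) : Prop :=
  ∀ j : ℕ, ℓ ∣ f.natDegree * j + 1 → ∀ w x₀ D : K, ∀ g : K[X],
    w = h - algebraMap k K c₁ → x₀ = algebraMap k K c₂ + w⁻¹ →
    D = w ^ f.natDegree * f.eval x₀ → g = f.scaleRoots (D ^ j * w) →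
    (∀ ξ ∈ Sha k ℓ g, ℓ • ξ = 0 → ξ = 0) ∧ TateModule ℓ (Sha k ℓ g) = ⊥ ∧
      (∀ t ∈ MW ℓ g, ℓ • t = 0 → t = 0) ∧
      Nat.card (MW ℓ g ⧸ (nsmulAddMonoidHom ℓ : MW ℓ g →+ MW ℓ g).range) =
        ℓ ^ ((ℓ - 1) / Module.finrank k (CyclotomicField ℓ k))

open Pool.Agent.HS36 in
lemma most_of_mem {k : Type u} [Field k] {T : Set k} (h : T ∈ hilbFilter k) : Most T := by
  obtain ⟨S, hS, B, hB, hT⟩ := mem_hilbFilter.mp h
  exact ⟨S, fun F hF => (hS F hF).1, B, hB, fun c hc hF => hT c hc hF⟩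

open Pool.Agent.HS36 in
lemma infinite_of_mem {k : Type u} [Field k] [CharZero k] (hk : (⊤ : IntermediateField ℚ k).FG)
    {T : Set k} (h : T ∈ hilbFilter k) : T.Infinite := by
  obtain ⟨S, hS, B, hB, hT⟩ := mem_hilbFilter.mp h
  refine ((Pool.Agent.MP1bdb59C.isHilbertian_of_fg hk S hS).sdiff hB).mono ?_
  rintro c ⟨h1, h2⟩
  exact hT c h2 h1

open Pool.Agent.HS36 in
lemma holds_mem {k : Type u} {K : Type v} [Field k] [CharZero k] [Field K] [Algebra k K] {h : K}
    (hh : Transcendental k h) (hfin : FiniteDimensional (IntermediateField.adjoin k {h}) K) {ℓ : ℕ}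
    (hℓ : ℓ.Prime) {f : K[X]} (hf : f.Monic) (hirr : Irreducible f) (hdeg : ¬ ℓ ∣ f.natDegree)
    {q : (AdjoinRoot f)[X]}
    (hq : f.map (AdjoinRoot.of f) = (X - C (AdjoinRoot.root f)) * q) (hqirr : Irreducible q)
    (hreg : ∀ x : AdjoinRoot q, IsAlgebraic k x → x ∈ Set.range (algebraMap k (AdjoinRoot q))) :
    {c₁ : k | {c₂ : k | Holds h ℓ f c₁ c₂} ∈ hilbFilter k} ∈ hilbFilter k := by
  have hp : Fact ℓ.Prime := ⟨hℓ⟩
  refine Filter.mem_of_superset (Pool.Agent.HSR.fam_all (isHilbFilter_hilbFilter k) hh hf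
    hirr hdeg hq hqirr hreg) ?_
  intro c₁ hc₁
  rw [Set.mem_ofPred_eq] at hc₁ ⊢
  refine Filter.mem_of_superset hc₁ ?_
  intro c₂ hc j hj w x₀ D g hw hx hD hg
  obtain ⟨-, h1, h2, h3⟩ := hc j hj w D g hw (by rw [hD, hx]) hg
  have h1' := transfer k ℓ ℓ g h1
  refine ⟨h1', Pool.Agent.MP1bdb59C.tateModule_eq_bot ?_, ?_, ?_⟩
  · rintro ⟨ξ, hξ⟩ hξ2
    apply Subtype.ext
    exact h1' ξ hξ (congrArg Subtype.val hξ2)
  · intro t ht htℓ
    apply (toOld ℓ g K).injective
    rw [map_zero]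
    refine h2 _ (fun σ => ?_) ?_
    · rw [← toOld_act, ht σ]
    · rw [← map_nsmul, htℓ, map_zero]
  · rw [card_eq, h3]

open Pool.Agent.HS36 in
/-- Let `k` be a field of characteristic zero. Let finitely many data be given, numbered by `i`:
an extension field `K i` of `k`, an element `h i` of `K i` transcendental over `k` with `K i` finite
over `k(h i)`, a prime number `ℓ i`, a monic irreducible polynomial `f i` in `(K i)[x]` of degree
prime to `ℓ i`, such that, for a root `θ` of `f i`, the factor `q i = f i/(x - θ)` is irreducible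
over `(K i)(θ)` and `k` is algebraically closed in `(K i)(θ)[x]/(q i)`. Then for most `c₁` in `k`
the conclusions in `Holds` hold for most `c₂` in `k`, for all `i` at once. If `k` is finitely
generated over `ℚ`, they hold for infinitely many `c₂`, for infinitely many `c₁`. -/
theorem result {k : Type u} [Field k] [CharZero k] {ι : Type w} [Finite ι] (K : ι → Type v)
    [∀ i, Field (K i)] [∀ i, Algebra k (K i)] (h : ∀ i, K i) (hh : ∀ i, Transcendental k (h i))
    (hfin : ∀ i, FiniteDimensional (IntermediateField.adjoin k {h i}) (K i)) (ℓ : ι → ℕ)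
    (hℓ : ∀ i, (ℓ i).Prime) (f : ∀ i, (K i)[X]) (hf : ∀ i, (f i).Monic)
    (hirr : ∀ i, Irreducible (f i)) (hdeg : ∀ i, ¬ ℓ i ∣ (f i).natDegree)
    (q : ∀ i, (AdjoinRoot (f i))[X])
    (hq : ∀ i, (f i).map (AdjoinRoot.of (f i)) = (X - C (AdjoinRoot.root (f i))) * q i)
    (hqirr : ∀ i, Irreducible (q i))
    (hreg : ∀ i, ∀ x : AdjoinRoot (q i), IsAlgebraic k x →
      x ∈ Set.range (algebraMap k (AdjoinRoot (q i)))) :
    Most {c₁ : k | Most {c₂ : k | ∀ i, Holds (h i) (ℓ i) (f i) c₁ c₂}} ∧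
    ((⊤ : IntermediateField ℚ k).FG →
      {c₁ : k | {c₂ : k | ∀ i, Holds (h i) (ℓ i) (f i) c₁ c₂}.Infinite}.Infinite) := by
  have key : {c₁ : k | {c₂ : k | ∀ i, Holds (h i) (ℓ i) (f i) c₁ c₂} ∈ hilbFilter k} ∈
      hilbFilter k := by
    have h1 := fun i => holds_mem (hh i) (hfin i) (hℓ i) (hf i) (hirr i) (hdeg i) (hq i) (hqirr i)
      (hreg i)
    refine Filter.mem_of_superset (Filter.iInter_mem.mpr h1) ?_
    intro c₁ hc₁
    have h2 : ∀ i, {c₂ : k | Holds (h i) (ℓ i) (f i) c₁ c₂} ∈ hilbFilter k :=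
      fun i => Set.mem_iInter.mp hc₁ i
    refine Filter.mem_of_superset (Filter.iInter_mem.mpr h2) ?_
    intro c₂ hc₂ i
    exact Set.mem_iInter.mp hc₂ i
  refine ⟨most_of_mem (Filter.mem_of_superset key fun c₁ hc₁ => most_of_mem hc₁), fun hk => ?_⟩
  exact (infinite_of_mem hk key).mono fun c₁ hc₁ => infinite_of_mem hk hc₁

end Pool.Agent.Results.MP_1bdb59_nt.RankHilbert
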